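import Pool.Agent.Helper998.Near.Flow
import Pool.Agent.Results.MP_e720fa_co.ColourableComplement

set_option autoImplicit false

open Finset

namespace Pool.Agent.Results.MP_0c3aa4_co.FlowCases

open Pool.Agent.Helper347.Sab

/-!
Q1 for all cubic graphs of circumference at least n - 1 (every S), for every single circuit S with
G - V(S) 3-edge-colourable, and for all pairs (G, S) for which the contracted graph G/E(S) has a
nowhere-zero 4-flow (for instance a spanning closed trail).
-/

variable {V E : Type} [Fintype V] [DecidableEq V] [Fintype E] [DecidableEq E]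

/-- The subgraph with edge set F (and all vertices) is connected. -/
def Connected (G : MGraph V E) (F : Finset E) : Prop :=
  ∀ a b : V, Relation.ReflTransGen (fun x y => ∃ e ∈ F, G.ends e = s(x, y)) a b

/-- G is connected and stays connected when any single edge is deleted (no bridge). -/
def TwoEdgeConnected (G : MGraph V E) : Prop :=
  Connected G univ ∧ ∀ e, Connected G (univ.erase e)

/-- S is (the edge set of) a 2-regular subgraph: every vertex has S-degree 0 or 2. -/
def TwoRegular (G : MGraph V E) (S : Finset E) : Prop :=
  ∀ v, dg G S v = 0 ∨ dg G S v = 2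

/-- A is an even edge set: all degrees are even. -/
def EvenSet (G : MGraph V E) (A : Finset E) : Prop := ∀ v, Even (dg G A v)

/-- The circumference of G is at least (number of vertices) - 1. -/
def NearHamiltonian (G : MGraph V E) : Prop :=
  ∃ A : Finset E, IsCircuit G A ∧ Fintype.card V ≤ A.card + 1

/-- S is one circuit and G - V(S) is 3-edge-colourable: the edges with both ends off S have a
proper 3-colouring. -/
def CircuitColourable (G : MGraph V E) (S : Finset E) : Prop :=
  IsCircuit G S ∧ ∃ col : E → Fin 3, ∀ (v : V) (e f : E), (∀ w ∈ G.ends e, dg G S w = 0) →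
    (∀ w ∈ G.ends f, dg G S w = 0) → v ∈ G.ends e → v ∈ G.ends f → e ≠ f → col e ≠ col f

/-- G/E(S) has a nowhere-zero 4-flow: two even sets cover all edges outside S. -/
def FourFlowOff (G : MGraph V E) (S : Finset E) : Prop :=
  ∃ A B : Finset E, EvenSet G A ∧ EvenSet G B ∧ ∀ e, e ∉ S → e ∈ A ∨ e ∈ B

/-- G/E(S) has a spanning closed trail: some even set A makes S ∪ A connected and spanning. -/
def SpanningTrailOff (G : MGraph V E) (S : Finset E) : Prop :=
  ∃ A : Finset E, EvenSet G A ∧ Connected G (S ∪ A)

/-- A cycle double cover, as a set of cycles: every edge lies in exactly two members. -/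
def IsCycleDoubleCover (G : MGraph V E) (F : Finset (Finset E)) : Prop :=
  (∀ X ∈ F, IsCircuit G X) ∧ ∀ e, (F.filter fun X => e ∈ X).card = 2

/-- Let G be a 2-edge-connected cubic multigraph and S a 2-regular subgraph of G with G - E(S)
connected. If G has circumference at least n - 1, or S is one circuit and G - V(S) is
3-edge-colourable, or G/E(S) has a spanning closed trail or a nowhere-zero 4-flow, then some cycle
double cover of G contains all cycles of S. -/
theorem result {V E : Type} [Fintype V] [DecidableEq V] [Fintype E] [DecidableEq E]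
    (G : MGraph V E) (hG : IsCubic G) (hconn : TwoEdgeConnected G)
    (S : Finset E) (hS : TwoRegular G S) (hGS : Connected G (univ \ S))
    (h : NearHamiltonian G ∨ CircuitColourable G S ∨ SpanningTrailOff G S ∨ FourFlowOff G S) :
    ∃ F : Finset (Finset E), IsCycleDoubleCover G F ∧
      ∀ D, IsCircuit G D → D ⊆ S → D ∈ F := by
  rcases h with ⟨A, hA, hlen⟩ | ⟨hSc, hcol⟩ | ⟨A, hA, hSA⟩ | ⟨A, B, hA, hB, hcov⟩
  · exact Pool.Agent.Helper998.Near.near_case G hG hconn S A hS hA hlen hGS
  · obtain ⟨A, B, hA, hB, hcov⟩ :=
      MP_e720fa_co.ColourableComplement.colour_flow G hG S hSc hcol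
    exact Pool.Agent.Helper998.Near.flow_case G hG S A B hS hA hB hcov hGS
  · obtain ⟨B, hB, hcov⟩ := Pool.Agent.Helper998.Near.trail_flow G S A hA hSA
    exact Pool.Agent.Helper998.Near.flow_case G hG S A B hS hA hB hcov hGS
  · exact Pool.Agent.Helper998.Near.flow_case G hG S A B hS hA hB hcov hGS

end Pool.Agent.Results.MP_0c3aa4_co.FlowCases
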